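import Mathlib

set_option maxHeartbeats 4000000

namespace Pool.Agent.Results.MP_d015f1_co.Zugzwang

open Finset Function

section defs
variable {A : Type}

/-- finite patterns on `ℤ`: a finite support with a colouring of it -/
abbrev Pat (A : Type) := (S : Finset ℤ) × (S → A)

/-- some translate of a pattern of `F` appears in the position `q` (`none` = uncoloured cell) -/
def Appears (F : Finset (Pat A)) (q : ℤ → Option A) : Prop :=
  ∃ p ∈ F, ∃ i : ℤ, ∀ s : p.1, q (i + s) = some (p.2 s)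

/-- `Win F pass t q`: the position `q` of the game on `E = ℤ`, with `A` (`t = true`) or `B`
(`t = false`) to move, is winning for `A`; passing is allowed iff `pass = true` -/
inductive Win (F : Finset (Pat A)) (pass : Bool) : Bool → (ℤ → Option A) → Prop
  | final {t q} : Appears F q → Win F pass t q
  | moveA {q} (i a) : q i = none → Win F pass false (update q i (some a)) → Win F pass true q
  | passA {q} : pass = true → Win F pass false q → Win F pass true q
  | moveB {q} : (∃ i, q i = none) → (∀ i a, q i = none → Win F pass true (update q i (some a))) →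
      (pass = true → Win F pass true q) → Win F pass false q

end defs

abbrev C := Bool × Bool
abbrev Pos := ℤ → Option C

def W (x y z : C) : Bool := if y.1 then x.2 == y.2 else z.2 == y.2

def inG (i b : ℤ) : Prop := i = b ∨ i = b + 1 ∨ i = b + 5

def Op (q : Pos) (b : ℤ) : Prop :=
  (¬ q b = none ∧ q (b + 1) = none ∧ q (b + 5) = none) ∨
  (q b = none ∧ ¬ q (b + 1) = none ∧ q (b + 5) = none) ∨
  (q b = none ∧ q (b + 1) = none ∧ ¬ q (b + 5) = none)

def ok (o : Option C) (x : C) : Prop := o = none ∨ o = some x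

def Dec (p : Bool) (q : Pos) (b : ℤ) : Prop :=
  ∀ x y z, ok (q b) x → ok (q (b + 1)) y → ok (q (b + 5)) z → W x y z = p

def Fi (q : Pos) : Prop := ∃ M, ∀ i > M, q i = none

theorem Fi.upd {q : Pos} (h : Fi q) (i a) : Fi (update q i a) := by
  obtain ⟨M, h⟩ := h
  exact ⟨max M i, fun j hj => by rw [update_of_ne (by omega), h j (by omega)]⟩

theorem Fi.ex {q : Pos} (h : Fi q) : ∃ i, q i = none := h.elim fun M h => ⟨M + 1, h _ (by omega)⟩

theorem ok_upd {q : Pos} {i : ℤ} (hi : q i = none) (a j x) (h : ok (update q i a j) x) : ok (q j) x := by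
  by_cases e : j = i
  · exact .inl (e ▸ hi)
  · rwa [update_of_ne e] at h

theorem Dec.upd {p q b} (h : Dec p q b) {i : ℤ} (hi : q i = none) (a) : Dec p (update q i a) b :=
  fun x y z h1 h2 h3 => h x y z (ok_upd hi _ _ _ h1) (ok_upd hi _ _ _ h2) (ok_upd hi _ _ _ h3)

theorem Op.upd {q b} (h : Op q b) {i : ℤ} (hi : ¬ inG i b) (a) : Op (update q i a) b := by
  unfold inG at hi
  unfold Op
  rwa [update_of_ne (by omega), update_of_ne (by omega), update_of_ne (by omega)]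

theorem Op.dec {q b} (h : Op q b) (p : Bool) :
    ∃ i a, q i = none ∧ inG i b ∧ Dec p (update q i (some a)) b := by
  rcases h with ⟨h0, h1, h5⟩ | ⟨h0, h1, h5⟩ | ⟨h0, h1, h5⟩
  · obtain ⟨u, hu⟩ := Option.ne_none_iff_exists'.1 h0
    refine ⟨b + 1, (true, u.2 == p), h1, .inr (.inl rfl), ?_⟩
    intro x y z a0 a1 a5
    rw [update_of_ne (by omega), hu] at a0; rw [update_self] at a1
    simp only [ok, reduceCtorEq, false_or, Option.some.injEq] at a0 a1
    subst a0 a1; clear a5 hu; revert u z p; decide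
  · obtain ⟨⟨_ | _, u⟩, hu⟩ := Option.ne_none_iff_exists'.1 h1
    · refine ⟨b + 5, (true, u == p), h5, .inr (.inr rfl), ?_⟩
      intro x y z a0 a1 a5
      rw [update_of_ne (by omega), hu] at a1; rw [update_self] at a5
      simp only [ok, reduceCtorEq, false_or, Option.some.injEq] at a1 a5
      subst a1 a5; clear a0 hu; revert u x p; decide
    · refine ⟨b, (true, u == p), h0, .inl rfl, ?_⟩
      intro x y z a0 a1 a5
      rw [update_of_ne (by omega), hu] at a1; rw [update_self] at a0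
      simp only [ok, reduceCtorEq, false_or, Option.some.injEq] at a1 a0
      subst a1 a0; clear a5 hu; revert u z p; decide
  · obtain ⟨u, hu⟩ := Option.ne_none_iff_exists'.1 h5
    refine ⟨b + 1, (false, u.2 == p), h1, .inr (.inl rfl), ?_⟩
    intro x y z a0 a1 a5
    rw [update_of_ne (by omega), hu] at a5; rw [update_self] at a1
    simp only [ok, reduceCtorEq, false_or, Option.some.injEq] at a5 a1
    subst a5 a1; clear a0 hu; revert u x p; decide

theorem exF (L : ℤ) : ∃ F : Finset (Pat C), ∀ p, p ∈ F ↔ p.1 ⊆ Icc 0 L ∧ ∀ r : Fin 3, ∃ b : ℤ,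
    b % 3 = r ∧ ∃ h0 h1 h5, W (p.2 ⟨b, h0⟩) (p.2 ⟨b + 1, h1⟩) (p.2 ⟨b + 5, h5⟩) = true := by
  classical
  exact ⟨((Icc (0 : ℤ) L).powerset.sigma fun _ => univ).filter fun p => ∀ r : Fin 3, ∃ b : ℤ,
    b % 3 = r ∧ ∃ h0 h1 h5, W (p.2 ⟨b, h0⟩) (p.2 ⟨b + 1, h1⟩) (p.2 ⟨b + 5, h5⟩) = true, fun p => by
      rw [mem_filter, mem_sigma, mem_powerset]; simp only [mem_univ, and_true]⟩

/-- the forbidden patterns -/
noncomputable def F : Finset (Pat C) := (exF 65).choose

def Inv (q : Pos) : Prop :=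
  ∀ t, t % 3 = 0 → (q t = none ∧ q (t + 1) = none ∧ q (t + 5) = none) ∨ Dec false q t

theorem Inv.not_app {q : Pos} (h : Inv q) : ¬ Appears F q := by
  rintro ⟨p, hp, i, hi⟩
  obtain ⟨b, hb, h0, h1, h5, hw⟩ := (((exF 65).choose_spec p).1 hp).2 ⟨((-i) % 3).toNat, by omega⟩
  have a0 := hi ⟨b, h0⟩; have a1 := hi ⟨b + 1, h1⟩; have a5 := hi ⟨b + 5, h5⟩
  simp only [← add_assoc] at a0 a1 a5 hb
  rcases h (i + b) (by omega) with h | h
  · simp [h.1] at a0
  · simp [h _ _ _ (.inr a0) (.inr a1) (.inr a5)] at hw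

theorem app_upd {q : Pos} (h : Appears F q) {i : ℤ} (hi : q i = none) (a) :
    Appears F (update q i a) := by
  obtain ⟨p, hp, j, hj⟩ := h
  refine ⟨p, hp, j, fun s => ?_⟩
  rw [update_of_ne fun e => (by have := hj s; rw [e, hi] at this; cases this), hj]

theorem Bwins {t q} (h : Win F true t q) : ¬ (Inv q ∨ t = false ∧
    ∃ i a, q i = none ∧ Inv (update q i (some a))) := by
  induction h with
  | final h =>
    rintro (h' | ⟨-, i, a, hi, h'⟩)
    exacts [h'.not_app h, h'.not_app (app_upd h hi _)]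
  | @moveA q i a hi _ ih =>
    rintro (h | ⟨h, -⟩)
    swap; · cases h
    obtain ⟨t, ht, hit⟩ : ∃ t, t % 3 = 0 ∧ inG i t := by
      unfold inG
      rcases (by omega : i % 3 = 0 ∨ i % 3 = 1 ∨ i % 3 = 2) with h | h | h
      exacts [⟨i, by omega⟩, ⟨i - 1, by omega⟩, ⟨i - 5, by omega⟩]
    have key : ∀ q' : Pos, (∀ j, ¬ inG j t → q' j = q j) → Dec false q' t → Inv q' := by
      intro q' e hd s hs
      by_cases hst : s = t
      · exact .inr (hst ▸ hd)
      · unfold Dec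
        rw [e s, e (s + 1), e (s + 5)]
        · exact h s hs
        all_goals unfold inG; omega
    have e1 : ∀ j, ¬ inG j t → update q i (some a) j = q j := fun j hj =>
      update_of_ne (fun e => hj (by rw [e]; exact hit)) _ _
    rcases h t ht with h0 | h0
    · have : Op (update q i (some a)) t := by
        unfold Op
        rcases hit with rfl | rfl | rfl <;> simp [update_apply, h0]
      obtain ⟨i', a', h1, h2, h3⟩ := this.dec false
      exact ih (.inr ⟨rfl, i', a', h1, key _ (fun j hj => by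
        rw [update_of_ne (fun e => hj (by rw [e]; exact h2)), e1 j hj]) h3⟩)
    · exact ih (.inl (key _ e1 (h0.upd hi _)))
  | passA _ _ ih =>
    rintro (h | ⟨h, -⟩)
    exacts [ih (.inl h), by cases h]
  | moveB _ _ _ ih1 ih2 =>
    rintro (h | ⟨-, i, a, hi, h⟩)
    exacts [ih2 rfl (.inl h), ih1 i a hi (.inl h)]

theorem fill (s : ℤ) (g : Fin 3 → ℤ) (hg : ∀ r, (g r - s) % 3 = r ∧ s ≤ g r ∧ g r ≤ s + 60) (n : ℕ) :
    ∀ q : Pos, Fi q → ((Icc s (s + 65)).filter fun i => q i = none).card ≤ n →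
      (∀ r, Dec true q (g r)) → ∀ t, Win F false t q := by
  have hc : ∀ (q : Pos) i a, ((Icc s (s + 65)).filter fun j => update q i (some a) j = none) =
      ((Icc s (s + 65)).filter fun j => q j = none).erase i := by
    intro q i a; ext j; by_cases e : j = i <;> simp [update_apply, e]
  have hB : ∀ n, (∀ q : Pos, Fi q → ((Icc s (s + 65)).filter fun i => q i = none).card ≤ n →
      (∀ r, Dec true q (g r)) → Win F false true q) → ∀ q : Pos, Fi q →
      ((Icc s (s + 65)).filter fun i => q i = none).card ≤ n →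
      (∀ r, Dec true q (g r)) → ∀ t, Win F false t q := by
    rintro n hA q hf hn hd (_ | _)
    · exact .moveB hf.ex (fun i a hi => hA _ (hf.upd _ _) (by rw [hc]; exact card_erase_le.trans hn)
        fun r => (hd r).upd hi _) nofun
    · exact hA q hf hn hd
  have h0 : ∀ q : Pos, (∀ i ∈ Icc s (s + 65), ¬ q i = none) → (∀ r, Dec true q (g r)) →
      Win F false true q := by
    intro q hq hd
    have e : ∀ j ∈ Icc (0 : ℤ) 65, q (s + j) = some ((q (s + j)).getD default) := by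
      intro j hj
      have := hq (s + j) (by simp at hj ⊢; omega)
      cases h : q (s + j) <;> simp_all
    refine .final ⟨⟨Icc 0 65, fun j => (q (s + j)).getD default⟩, ((exF 65).choose_spec _).2 ⟨Subset.rfl, fun r => ?_⟩,
      s, fun j => e j j.2⟩
    obtain ⟨h1, h2, h3⟩ := hg r
    have m0 : g r - s ∈ Icc (0 : ℤ) 65 := by simp; omega
    have m1 : g r - s + 1 ∈ Icc (0 : ℤ) 65 := by simp; omega
    have m5 : g r - s + 5 ∈ Icc (0 : ℤ) 65 := by simp; omega
    refine ⟨g r - s, h1, m0, m1, m5, hd r _ _ _ (.inr ?_) (.inr ?_) (.inr ?_)⟩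
    · rw [← e _ m0]; congr 1; ring
    · rw [← e _ m1]; congr 1; ring
    · rw [← e _ m5]; congr 1; ring
  induction n with
  | zero =>
    refine hB 0 fun q _ hn hd => h0 q (fun i hi h => ?_) hd
    have := card_pos.2 ⟨i, (mem_filter (p := fun i => q i = none)).2 ⟨hi, h⟩⟩
    omega
  | succ n ih =>
    refine hB _ fun q hf hn hd => ?_
    by_cases h : ∃ i ∈ Icc s (s + 65), q i = none
    · obtain ⟨i, hi, h⟩ := h
      refine .moveA i default h (ih _ (hf.upd _ _) ?_ (fun r => (hd r).upd h _) _)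
      rw [hc, card_erase_of_mem (mem_filter.2 ⟨hi, h⟩)]; omega
    · exact h0 q (fun i hi h' => h ⟨i, hi, h'⟩) hd

theorem stepB (s : ℤ) (g : Fin 3 × Bool → ℤ)
    (hg : ∀ a, (g a - s) % 3 = a.1 ∧ s ≤ g a ∧ g a ≤ s + 60) (n : ℕ) :
    ∀ (R : Finset (Fin 3)) (q : Pos), R.card = n → Fi q → (∀ r ∉ R, ∃ e, Dec true q (g (r, e))) →
      (∀ a, a.1 ∈ R → Op q (g a)) → (∀ a b, a ≠ b → ∀ i, q i = none → inG i (g a) → ¬ inG i (g b)) →
      Win F false false q := by
  induction n with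
  | zero =>
    intro R q hR hf hd _ _
    obtain rfl := card_eq_zero.1 hR
    choose e he using fun r => hd r (notMem_empty r)
    exact fill s (fun r => g (r, e r)) (fun r => hg _) _ q hf le_rfl he _
  | succ n ih =>
    intro R q hR hf hd ho hj
    refine .moveB hf.ex (fun i x hi => ?_) nofun
    obtain ⟨j, e, hjR, h⟩ : ∃ j e, j ∈ R ∧ ∀ a, a.1 ∈ R → a ≠ (j, !e) → ¬ inG i (g a) := by
      by_cases h : ∃ a : Fin 3 × Bool, a.1 ∈ R ∧ inG i (g a)
      · obtain ⟨a, h1, h2⟩ := h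
        exact ⟨a.1, !a.2, h1, fun b _ hb => hj a b (by simpa using hb.symm) i hi h2⟩
      · obtain ⟨j, hj⟩ := card_pos.1 (by omega : 0 < R.card)
        exact ⟨j, true, hj, fun a h1 _ h2 => h ⟨a, h1, h2⟩⟩
    obtain ⟨i', x', h1, h2, h3⟩ := ((ho (j, e) hjR).upd (h _ hjR (by simp)) (some x)).dec true
    have m : ∀ {q : Pos} {i k x}, update q i (some x) k = none → q k = none := by
      intro q i k x; by_cases e : k = i <;> simp [update_apply, e]
    refine .moveA i' x' h1 (ih (R.erase j) _ (by rw [card_erase_of_mem hjR]; omega)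
      ((hf.upd _ _).upd _ _) (fun r hr => ?_) (fun a ha => ?_) fun a b hab k hk => hj a b hab k (m (m hk)))
    · by_cases e' : r = j
      · exact ⟨e, e' ▸ h3⟩
      · obtain ⟨e, he⟩ := hd r fun h => hr (mem_erase.2 ⟨e', h⟩)
        exact ⟨e, (he.upd hi _).upd h1 _⟩
    · obtain ⟨ha1, ha2⟩ := mem_erase.1 ha
      exact ((ho a ha2).upd (h a ha2 fun e => ha1 (e ▸ rfl)) _).upd
        (hj (j, e) a (fun e => ha1 (e ▸ rfl)) i' (m h1) h2) _

theorem tri (q : Pos) (p0 p1 p2 p3 b0 b1 b2 c s : ℤ)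
    (hq : ∀ i, q i = none ↔ i ≠ p0 ∧ i ≠ p1 ∧ i ≠ p2 ∧ i ≠ p3) (h0 : Op q b0) (h1 : Op q b1)
    (h2 : Op q b2) (r : (b0 - s) % 3 = 0 ∧ (b1 - s) % 3 = 1 ∧ (b2 - s) % 3 = 2 ∧ (c - s) % 3 = 0)
    (w : s ≤ b0 ∧ s ≤ b1 ∧ s ≤ b2 ∧ s + 5 ≤ c ∧ b0 ≤ s + 60 ∧ b1 ≤ s + 60 ∧ b2 ≤ s + 60 ∧ c ≤ s + 60)
    (d : ∀ i, q i = none → (inG i b0 → ¬ inG i b1) ∧ (inG i b0 → ¬ inG i b2) ∧ (inG i b1 → ¬ inG i b2))
    (hc : ∀ i, c - 5 ≤ i → i ≤ c + 5 → q i = none)
    (far : (b0 + 10 < c ∧ b1 + 10 < c ∧ b2 + 10 < c) ∨ (c + 5 < b0 ∧ c + 5 < b1 ∧ c + 5 < b2)) :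
    Win F false true q := by
  have hf : Fi q := ⟨max (max p0 p1) (max p2 p3), fun i hi => (hq i).2 (by omega)⟩
  refine .moveA c default (hc c (by omega) (by omega)) (stepB s
    (fun a => if a.2 then ![b0, b1, b2] a.1 else ![c, c - 5, c - 1] a.1) ?_ _ univ _ rfl (hf.upd _ _)
    (by simp) ?_ ?_)
  · rintro ⟨j, _ | _⟩ <;> fin_cases j <;> simp <;> omega
  · rintro ⟨j, _ | _⟩ - <;> fin_cases j <;> simp
    · exact .inl (by simp [update_apply, hc (c + 1) (by omega) (by omega), hc (c + 5) (by omega) (by omega)])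
    · refine .inr (.inr ?_)
      rw [update_of_ne (by omega), update_of_ne (by omega), sub_add_cancel]
      simp [hc (c - 5) (by omega) (by omega), hc (c - 5 + 1) (by omega) (by omega)]
    · refine .inr (.inl ?_)
      rw [update_of_ne (by omega), sub_add_cancel, update_of_ne (by omega : c - 1 + 5 ≠ c)]
      simp [hc (c - 1) (by omega) (by omega), hc (c - 1 + 5) (by omega) (by omega)]
    · exact h0.upd (by unfold inG; omega) _
    · exact h1.upd (by unfold inG; omega) _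
    · exact h2.upd (by unfold inG; omega) _
  · rintro ⟨j, e⟩ ⟨k, f⟩ hab i hi
    have hic : i ≠ c := fun e => by simp [e] at hi
    rw [update_of_ne hic] at hi
    have := d i hi
    clear r w d hi hq h0 h1 h2 hc hf
    unfold inG at *
    cases e <;> cases f <;> fin_cases j <;> fin_cases k <;> first | exact absurd rfl hab | skip
    all_goals (simp; omega)

theorem iso (q : Pos) (p0 p1 p2 p3 : ℤ)
    (hq : ∀ i, q i = none ↔ i ≠ p0 ∧ i ≠ p1 ∧ i ≠ p2 ∧ i ≠ p3)
    (h : ∀ p, p = p1 ∨ p = p2 ∨ p = p3 → p - p0 ≠ 1 ∧ p - p0 ≠ 4 ∧ p - p0 ≠ 5 ∧ p - p0 ≠ -1 ∧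
      p - p0 ≠ -4 ∧ p - p0 ≠ -5)
    (h' : (p1 < p0 ∧ p2 < p0 ∧ p3 < p0) ∨ (p0 < p1 ∧ p0 < p2 ∧ p0 < p3)) : Win F false true q := by
  have a1 := h p1 (by simp); have a2 := h p2 (by simp); have a3 := h p3 (by simp)
  rcases h' with h' | h'
  · refine tri q p0 p1 p2 p3 p0 (p0 - 5) (p0 - 1) (p0 + 12) (p0 - 30) hq ?_ ?_ ?_ ?_ ?_ ?_ ?_ ?_ <;>
      (try simp only [Op, inG, hq]) <;> intros <;> omega
  · refine tri q p0 p1 p2 p3 p0 (p0 - 5) (p0 - 1) (p0 - 12) (p0 - 30) hq ?_ ?_ ?_ ?_ ?_ ?_ ?_ ?_ <;>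
      (try simp only [Op, inG, hq]) <;> intros <;> omega

def tb : List (ℤ × ℤ × ℤ) := [(-15, -11, -10), (-9, -14, -10), (-9, -8, -13), (-12, -8, -7),
  (-6, -11, -7), (-6, 1, -10), (-9, 1, -1), (-3, -8, -1), (-3, -5, -7), (-6, -2, -4), (0, 0, 0),
  (0, 0, 0), (-3, -5, -1), (3, -5, 2), (3, -5, 5), (0, 0, 0), (6, -5, -1), (6, -5, -1), (3, -5, 5),
  (9, -5, -1), (9, -5, -1)]

theorem full (q : Pos) (t : ℤ) (hq : ∀ i, q i = none ↔ ¬ inG i t) : Win F false false q := by
  refine .moveB ⟨t + 2, (hq _).2 (by unfold inG; omega)⟩ (fun r x hr => ?_) nofun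
  have hq' : ∀ i, update q r (some x) i = none ↔ i ≠ r ∧ i ≠ t ∧ i ≠ t + 1 ∧ i ≠ t + 5 := by
    intro i; by_cases e : i = r <;> simp [update_apply, e, hq, inG]
  rw [hq, inG] at hr
  by_cases h : r - t < -10 ∨ 10 < r - t
  · exact iso _ _ _ _ _ hq' (by intro p hp; omega) (by omega)
  obtain ⟨d, hd, rfl⟩ : ∃ d : ℕ, d < 21 ∧ r = t + d - 10 := ⟨(r - t + 10).toNat, by omega⟩
  refine tri _ _ _ _ _ (t + (tb.getD d 0).1) (t + (tb.getD d 0).2.1) (t + (tb.getD d 0).2.2) (t + 30)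
    (t - 15) hq' ?_ ?_ ?_ ?_ ?_ ?_ ?_ ?_ <;> (try simp only [Op, inG, hq']) <;> interval_cases d <;>
    (try simp only [tb, List.getD_cons_succ, List.getD_cons_zero]) <;> intros <;> omega

theorem result : ∃ (A : Type) (_ : Fintype A) (F : Finset (Pat A)),
    Win F false true (fun _ => none) ∧ ¬ Win F true true (fun _ => none) := by
  refine ⟨C, inferInstance, F, .moveA 0 default rfl (.moveB ⟨1, by simp⟩ (fun r x hr => ?_) nofun),
    fun h => Bwins h (.inl fun t _ => .inl ⟨rfl, rfl, rfl⟩)⟩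
  have h0 : r ≠ 0 := fun e => by simp [e] at hr
  have hq : ∀ i, update (update (fun _ => none : Pos) 0 (some default)) r (some x) i = none ↔
      i ≠ 0 ∧ i ≠ r ∧ i ≠ r ∧ i ≠ r := by
    intro i; by_cases e : i = r <;> by_cases e' : i = 0 <;> simp [update_apply, e, e', h0.symm]
  by_cases h : r ≠ 1 ∧ r ≠ 4 ∧ r ≠ 5 ∧ r ≠ -1 ∧ r ≠ -4 ∧ r ≠ -5
  · exact iso _ _ _ _ _ hq (by intro p hp; omega) (by omega)
  obtain ⟨t, w, h1, h2⟩ : ∃ t w, (w ≠ 0 ∧ w ≠ r) ∧ ∀ i, inG i t ↔ i = 0 ∨ i = r ∨ i = w := by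
    unfold inG
    rcases (by omega : r = 1 ∨ r = 4 ∨ r = 5 ∨ r = -1 ∨ r = -4 ∨ r = -5) with h | h | h | h | h | h
    exacts [⟨0, 5, by omega, by omega⟩, ⟨-1, -1, by omega, by omega⟩, ⟨0, 1, by omega, by omega⟩,
      ⟨-1, 4, by omega, by omega⟩, ⟨-5, -5, by omega, by omega⟩, ⟨-5, -4, by omega, by omega⟩]
  refine .moveA w default ((hq w).2 (by omega)) (full _ t fun i => ?_)
  by_cases e : i = w
  · simp [e, h2]
  · rw [update_of_ne e, hq, h2]; omega

end Pool.Agent.Results.MP_d015f1_co.Zugzwang
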